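import Mathlib

set_option autoImplicit false

/-!
# Multisets of 27 numbers are not determined by their 3-sums

The 27 weights of the minuscule representation `V` of the Lie algebra `E₆` are, as linear forms in
`e₁, ..., e₆` and `λ = (e₁ + ... + e₆) / 3` (the 27 lines on a cubic surface), the numbers
`eᵢ`, `eᵢ - λ` and `λ - eᵢ - eⱼ` (`i < j`). The exterior cube of `V` is isomorphic to the exterior
cube of the dual of `V` (it is the irreducible representation of dimension 2925), while `V` is not
isomorphic to its dual. So the multiset `X` of these 27 numbers and `-X` have the same 3-sums and are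
different in general. Here `e = (-11, -5, -4, 7, 10, 15)`, `λ = 4`, for which the 27 numbers are
distinct.
-/

namespace Pool.Agent.Results.MP_141b6b_nt.TwentySeven

/-- The multiset `Σ₃(X)` of the sums of the elements of `X` with three distinct indices:
`Multiset.powersetCard 3 X` is the multiset of the sub-multisets of `X` with three elements, counted
with multiplicity (there are `n.choose 3` of them if `X` has `n` elements). -/
def threeSums {M : Type} [AddCommMonoid M] (X : Multiset M) : Multiset M :=
  (Multiset.powersetCard 3 X).map Multiset.sum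

/-- The 27 numbers `eᵢ`, `eᵢ - λ`, `λ - eᵢ - eⱼ` for `e = (-11, -5, -4, 7, 10, 15)`, `λ = 4`. -/
def lineValues : List ℤ :=
  [-21, -18, -15, -13, -11, -9, -8, -7, -6, -5, -4, -2, -1, 0, 1, 2, 3, 5, 6, 7, 8, 10, 11, 13, 15,
    19, 20]

/-- sums of all sublists of length three -/
def sums3 (l : List ℤ) : List ℤ := (List.sublistsLen 3 l).map List.sum

theorem threeSums_coe (l : List ℤ) : threeSums (l : Multiset ℤ) = (sums3 l : Multiset ℤ) := by
  unfold threeSums sums3
  rw [Multiset.powersetCard_coe, Multiset.map_coe, List.map_map]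
  congr 1

/-- the counts of the elements of `l` in `[-60, 60]` as the digits in base 4096 of a number -/
def code (l : List ℤ) : ℕ := (l.map fun s => Nat.pow 4096 (s + 60).toNat).sum

theorem check :
    ((sums3 lineValues).all fun x => decide (-60 ≤ x ∧ x ≤ 60)) = true ∧
    ((sums3 (lineValues.map (-·))).all fun x => decide (-60 ≤ x ∧ x ≤ 60)) = true ∧
    code (sums3 lineValues) = code (sums3 (lineValues.map (-·))) := by
  decide +kernel

theorem code_eq (l : List ℤ) (h : ∀ a ∈ l, -60 ≤ a ∧ a ≤ 60) :
    code l = ∑ k ∈ Finset.range 121, l.count ((k : ℤ) - 60) * 4096 ^ k := by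
  induction l with
  | nil => simp [code]
  | cons a l ih =>
    have ha := h a (by simp)
    have hl := ih fun b hb => h b (by simp [hb])
    have e1 : code (a :: l) = 4096 ^ (a + 60).toNat + code l := by
      unfold code
      rw [List.map_cons, List.sum_cons]
      rfl
    have e2 : ∀ k ∈ Finset.range 121, (a :: l).count ((k : ℤ) - 60) * 4096 ^ k =
        l.count ((k : ℤ) - 60) * 4096 ^ k + if k = (a + 60).toNat then 4096 ^ k else 0 := by
      intro k _
      rw [List.count_cons]
      by_cases hk : k = (a + 60).toNat
      · have h1 : a = (k : ℤ) - 60 := by omega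
        rw [if_pos hk, if_pos (beq_iff_eq.2 h1)]
        ring
      · have h1 : ¬ a = (k : ℤ) - 60 := by omega
        rw [if_neg hk, if_neg (fun h2 => h1 (beq_iff_eq.1 h2))]
        ring
    rw [e1, hl, Finset.sum_congr rfl e2, Finset.sum_add_distrib, Finset.sum_ite_eq' (Finset.range 121),
      if_pos (by rw [Finset.mem_range]; omega), add_comm]

theorem low_lt (f : ℕ → ℕ) (n : ℕ) (hf : ∀ k, f k < 4096) :
    ∑ k ∈ Finset.range n, f k * 4096 ^ k < 4096 ^ n := by
  induction n with
  | zero => simp
  | succ n ih =>
    rw [Finset.sum_range_succ, pow_succ]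
    have h1 : f n + 1 ≤ 4096 := hf n
    have h2 : (f n + 1) * 4096 ^ n ≤ 4096 * 4096 ^ n := Nat.mul_le_mul_right _ h1
    nlinarith

theorem uniq (f g : ℕ → ℕ) (hf : ∀ k, f k < 4096) (hg : ∀ k, g k < 4096) (n : ℕ)
    (h : ∑ k ∈ Finset.range n, f k * 4096 ^ k = ∑ k ∈ Finset.range n, g k * 4096 ^ k) :
    ∀ k < n, f k = g k := by
  induction n with
  | zero => intro k hk; omega
  | succ n ih =>
    rw [Finset.sum_range_succ, Finset.sum_range_succ] at h
    have h1 := low_lt f n hf
    have h2 := low_lt g n hg
    have hp : 0 < 4096 ^ n := by positivity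
    have e1 : f n = g n := by
      have e := congrArg (· / 4096 ^ n) h
      simp only [Nat.add_mul_div_right _ _ hp, Nat.div_eq_of_lt h1, Nat.div_eq_of_lt h2, zero_add] at e
      exact e
    rw [e1] at h
    intro k hk
    rcases Nat.lt_succ_iff_lt_or_eq.1 hk with hk | hk
    · exact ih (by omega) k hk
    · rw [hk]
      exact e1

theorem length_sums3 (l : List ℤ) (hl : l.length = 27) : (sums3 l).length = 2925 := by
  unfold sums3
  rw [List.length_map, List.length_sublistsLen, hl]
  decide

theorem perm : (sums3 lineValues).Perm (sums3 (lineValues.map (-·))) := by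
  obtain ⟨h1, h2, h3⟩ := check
  have g1 : ∀ a ∈ sums3 lineValues, -60 ≤ a ∧ a ≤ 60 := fun a h => by
    simpa using (List.all_eq_true.1 h1) a h
  have g2 : ∀ a ∈ sums3 (lineValues.map (-·)), -60 ≤ a ∧ a ≤ 60 := fun a h => by
    simpa using (List.all_eq_true.1 h2) a h
  rw [code_eq _ g1, code_eq _ g2] at h3
  have l1 := length_sums3 lineValues rfl
  have l2 := length_sums3 (lineValues.map (-·)) rfl
  have h4 := uniq _ _ (fun k => lt_of_le_of_lt List.count_le_length (by rw [l1]; norm_num))
    (fun k => lt_of_le_of_lt List.count_le_length (by rw [l2]; norm_num)) 121 h3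
  rw [List.perm_iff_count]
  intro a
  by_cases ha : -60 ≤ a ∧ a ≤ 60
  · obtain ⟨k, hk⟩ : ∃ k : ℕ, a = (k : ℤ) - 60 := ⟨(a + 60).toNat, by omega⟩
    rw [hk]
    exact h4 k (by omega)
  · rw [List.count_eq_zero_of_not_mem fun h => ha (g1 a h),
      List.count_eq_zero_of_not_mem fun h => ha (g2 a h)]

theorem threeSums_map {M N : Type} [AddCommMonoid M] [AddCommMonoid N] (f : M →+ N)
    (X : Multiset M) : threeSums (X.map f) = (threeSums X).map f := by
  unfold threeSums
  rw [Multiset.powersetCard_map, Multiset.map_map, Multiset.map_map]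
  refine Multiset.map_congr rfl fun s _ => ?_
  simp [map_multiset_sum]

/-- **Theorem.** There are two different multisets of 27 complex numbers with the same 3-sums. They
can be chosen as two different sets of 27 (distinct) integers, the second one consisting of the
negatives of the elements of the first one. -/
theorem result :
    (∃ X X' : Multiset ℂ, X.card = 27 ∧ X'.card = 27 ∧ X ≠ X' ∧ threeSums X = threeSums X') ∧
    ∃ A : Finset ℤ, A.card = 27 ∧ A.val ≠ A.val.map (-·) ∧
      threeSums A.val = threeSums (A.val.map (-·)) ∧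
      threeSums (A.val.map (fun a : ℤ => (a : ℂ))) =
        threeSums (A.val.map (fun a : ℤ => (-a : ℂ))) := by
  have hnd : lineValues.Nodup := by decide
  have key : threeSums (lineValues : Multiset ℤ) =
      threeSums ((lineValues : Multiset ℤ).map (-·)) := by
    rw [Multiset.map_coe, threeSums_coe, threeSums_coe]
    exact Multiset.coe_eq_coe.2 perm
  have hne : (lineValues : Multiset ℤ) ≠ (lineValues : Multiset ℤ).map (-·) := by
    rw [Multiset.map_coe]
    intro h
    have h1 : (-21 : ℤ) ∈ ((lineValues.map (-·) : List ℤ) : Multiset ℤ) := by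
      rw [← h]
      decide
    revert h1
    decide
  have hC : threeSums ((lineValues : Multiset ℤ).map (fun a : ℤ => (a : ℂ))) =
      threeSums ((lineValues : Multiset ℤ).map (fun a : ℤ => (-a : ℂ))) := by
    have e1 := threeSums_map (Int.castAddHom ℂ) (lineValues : Multiset ℤ)
    have e2 := threeSums_map (Int.castAddHom ℂ) ((lineValues : Multiset ℤ).map (-·))
    rw [← key, ← e1, Multiset.map_map] at e2
    rw [show (fun a : ℤ => (a : ℂ)) = (Int.castAddHom ℂ) from rfl, ← e2]
    congr 1
    refine Multiset.map_congr rfl fun a _ => ?_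
    simp
  refine ⟨⟨(lineValues : Multiset ℤ).map (fun a : ℤ => (a : ℂ)),
    (lineValues : Multiset ℤ).map (fun a : ℤ => (-a : ℂ)), ?_, ?_, ?_, hC⟩,
    ⟨(lineValues : Multiset ℤ), Multiset.coe_nodup.2 hnd⟩, ?_, hne, key, hC⟩
  · simp [lineValues]
  · simp [lineValues]
  · intro h
    apply hne
    have hinj : Function.Injective (fun a : ℤ => (a : ℂ)) := Int.cast_injective
    apply Multiset.map_injective hinj
    rw [h, Multiset.map_map]
    refine Multiset.map_congr rfl fun a _ => ?_
    simp
  · simp [Finset.card, lineValues]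

end Pool.Agent.Results.MP_141b6b_nt.TwentySeven
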